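import Pool.Agent.Work.MP_959bfa_lin.Interface3

set_option autoImplicit false

/-!
Block LEV (MP_959bfa_co, helper63): a weighted Mirsky theorem.
-/

namespace Wn

open Finset

/-- minimal elements of a nonempty set for a strict order on a finite type -/
theorem lev_min {ι : Type} [Finite ι] (lt : ι → ι → Prop) (hirr : ∀ i, ¬ lt i i)
    (htr : ∀ i j k, lt i j → lt j k → lt i k) (p : ι → Prop) (hp : ∃ i, p i) :
    ∃ m, p m ∧ ∀ j, p j → ¬ lt j m := by
  have : Std.Irrefl lt := ⟨hirr⟩
  have : IsTrans ι lt := ⟨htr⟩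
  have hwf : WellFounded lt := Finite.wellFounded_of_trans_of_irrefl lt
  obtain ⟨i, hi⟩ := hp
  obtain ⟨m, hm, hmin⟩ := hwf.has_min {i | p i} ⟨i, hi⟩
  exact ⟨m, hm, fun j hj => hmin j hj⟩

theorem lev_ind {ι : Type} [Fintype ι] [DecidableEq ι] (lt : ι → ι → Prop)
    (hirr : ∀ i, ¬ lt i i) (htr : ∀ i j k, lt i j → lt j k → lt i k) (h : ι → ℝ)
    (hh : ∀ i, 0 ≤ h i) :
    ∀ (N : ℕ) (y : ι → ℝ) (W : ℝ), (fl univ (fun i => 0 < y i)).card ≤ N → (∀ i, 0 ≤ y i) →
    (∀ C : Finset ι, (∀ i ∈ C, ∀ j ∈ C, i ≠ j → lt i j ∨ lt j i) → ∑ i ∈ C, y i ≤ W) →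
    ∃ A : Finset ι, (∀ i ∈ A, ∀ j ∈ A, ¬ lt i j) ∧ ∑ i, y i * h i ≤ W * ∑ i ∈ A, h i := by
  classical
  intro N
  induction N with
  | zero =>
    intro y W hN hy _
    have hz : ∀ i, y i = 0 := by
      intro i
      rcases (hy i).lt_or_eq with h1 | h1
      · have : i ∈ fl univ (fun i => 0 < y i) := mem_fl.2 ⟨mem_univ i, h1⟩
        have := card_pos.2 ⟨i, this⟩
        omega
      · exact h1.symm
    refine ⟨∅, by simp, ?_⟩
    simp [hz]
  | succ N IH =>
    intro y W hN hy hC
    by_cases hsupp : ∃ i, 0 < y i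
    swap
    · push Not at hsupp
      have hz : ∀ i, y i = 0 := fun i => le_antisymm (hsupp i) (hy i)
      refine ⟨∅, by simp, ?_⟩
      simp [hz]
    obtain ⟨M, hM⟩ : ∃ M : Finset ι, M = fl univ (fun i => 0 < y i ∧ ∀ j, 0 < y j → ¬ lt j i) :=
      ⟨_, rfl⟩
    have hMm : ∀ i, i ∈ M ↔ (0 < y i ∧ ∀ j, 0 < y j → ¬ lt j i) := by
      intro i
      rw [hM, mem_fl]
      simp
    have hMne : M.Nonempty := by
      obtain ⟨m, hm1, hm2⟩ := lev_min lt hirr htr (fun i => 0 < y i) hsupp
      exact ⟨m, (hMm m).2 ⟨hm1, hm2⟩⟩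
    obtain ⟨m0, hm0, hmin⟩ := exists_min_image M y hMne
    obtain ⟨d, hd⟩ : ∃ d, d = y m0 := ⟨_, rfl⟩
    have hd0 : 0 < d := by rw [hd]; exact ((hMm m0).1 hm0).1
    have hdM : ∀ m ∈ M, d ≤ y m := fun m hm => by rw [hd]; exact hmin m hm
    let y' : ι → ℝ := fun i => if i ∈ M then y i - d else y i
    have hy'1 : ∀ i, i ∈ M → y' i = y i - d := fun i hi => if_pos hi
    have hy'2 : ∀ i, i ∉ M → y' i = y i := fun i hi => if_neg hi
    have hy'0 : ∀ i, 0 ≤ y' i := by
      intro i
      by_cases hi : i ∈ M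
      · rw [hy'1 i hi]
        have := hdM i hi
        linarith
      · rw [hy'2 i hi]; exact hy i
    have hy'le : ∀ i, y' i ≤ y i := by
      intro i
      by_cases hi : i ∈ M
      · rw [hy'1 i hi]; linarith
      · rw [hy'2 i hi]
    have hcard : (fl univ (fun i => 0 < y' i)).card ≤ N := by
      have h1 : fl univ (fun i => 0 < y' i) ⊂ fl univ (fun i => 0 < y i) := by
        rw [ssubset_iff_of_subset]
        · refine ⟨m0, mem_fl.2 ⟨mem_univ _, ((hMm m0).1 hm0).1⟩, ?_⟩
          intro hc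
          have h2 := (mem_fl.1 hc).2
          rw [hy'1 m0 hm0, hd] at h2
          linarith
        · intro i hi
          exact mem_fl.2 ⟨mem_univ _, lt_of_lt_of_le (mem_fl.1 hi).2 (hy'le i)⟩
      have h2 := card_lt_card h1
      omega
    have hWd : d ≤ W := by
      have h1 := hC {m0} (by
        intro i hi j hj hij
        rw [mem_singleton] at hi hj
        exact absurd (hi.trans hj.symm) hij)
      rw [sum_singleton, ← hd] at h1
      exact h1
    have hchain : ∀ C : Finset ι, (∀ i ∈ C, ∀ j ∈ C, i ≠ j → lt i j ∨ lt j i) →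
        ∑ i ∈ C, y' i ≤ W - d := by
      intro C hCc
      obtain ⟨C', hC'⟩ : ∃ C' : Finset ι, C' = C.filter (fun i => y' i ≠ 0) := ⟨_, rfl⟩
      have hsum : ∑ i ∈ C, y' i = ∑ i ∈ C', y' i := by
        rw [hC', sum_filter_ne_zero]
      have hsub : C' ⊆ C := by rw [hC']; exact filter_subset _ _
      have hpos : ∀ i ∈ C', 0 < y' i := by
        intro i hi
        rw [hC', mem_filter] at hi
        exact lt_of_le_of_ne (hy'0 i) (Ne.symm hi.2)
      have hCc' : ∀ i ∈ C', ∀ j ∈ C', i ≠ j → lt i j ∨ lt j i :=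
        fun i hi j hj hij => hCc i (hsub hi) j (hsub hj) hij
      rw [hsum]
      by_cases hemp : C' = ∅
      · rw [hemp, sum_empty]; linarith
      by_cases hmeet : ∃ m ∈ C', m ∈ M
      · obtain ⟨m, hm1, hm2⟩ := hmeet
        have h1 := hC C' hCc'
        have h2 : ∑ i ∈ C', y' i + d ≤ ∑ i ∈ C', y i := by
          rw [← add_sum_erase C' y' hm1, ← add_sum_erase C' y hm1, hy'1 m hm2]
          have h3 : ∑ i ∈ C'.erase m, y' i ≤ ∑ i ∈ C'.erase m, y i :=
            sum_le_sum (fun i _ => hy'le i)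
          linarith
        linarith
      · push Not at hmeet
        obtain ⟨c0, hc0, hc0min⟩ := lev_min lt hirr htr (fun i => i ∈ C')
          (nonempty_iff_ne_empty.2 hemp)
        have hyc0 : 0 < y c0 := lt_of_lt_of_le (hpos c0 hc0) (hy'le c0)
        have hnM := hmeet c0 hc0
        rw [hMm] at hnM
        push Not at hnM
        obtain ⟨j0, hj0, hj0lt⟩ := hnM hyc0
        obtain ⟨m, ⟨hm1, hm2⟩, hm3⟩ := lev_min lt hirr htr (fun i => 0 < y i ∧ lt i c0)
          ⟨j0, hj0, hj0lt⟩
        have hmM : m ∈ M := by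
          rw [hMm]
          refine ⟨hm1, fun j hj hjm => ?_⟩
          exact hm3 j ⟨hj, htr j m c0 hjm hm2⟩ hjm
        have hmlt : ∀ c ∈ C', lt m c := by
          intro c hc
          by_cases h1 : c = c0
          · rw [h1]; exact hm2
          · rcases hCc' c hc c0 hc0 h1 with h2 | h2
            · exact absurd h2 (hc0min c hc)
            · exact htr m c0 c hm2 h2
        have hmC : m ∉ C' := fun hc => hirr m (hmlt m hc)
        have h1 := hC (insert m C') (by
          intro i hi j hj hij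
          rw [mem_insert] at hi hj
          rcases hi with hi | hi
          · rcases hj with hj | hj
            · exact absurd (hi.trans hj.symm) hij
            · rw [hi]; exact Or.inl (hmlt j hj)
          · rcases hj with hj | hj
            · rw [hj]; exact Or.inr (hmlt i hi)
            · exact hCc' i hi j hj hij)
        rw [sum_insert hmC] at h1
        have h2 : ∑ i ∈ C', y' i ≤ ∑ i ∈ C', y i := sum_le_sum (fun i _ => hy'le i)
        have h3 := hdM m hmM
        linarith
    obtain ⟨A, hA1, hA2⟩ := IH y' (W - d) hcard hy'0 hchain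
    have hsplit : ∑ i, y i * h i = d * ∑ i ∈ M, h i + ∑ i, y' i * h i := by
      have e : ∀ i, y i * h i = (if i ∈ M then d * h i else 0) + y' i * h i := by
        intro i
        by_cases hi : i ∈ M
        · rw [if_pos hi, hy'1 i hi]; ring
        · rw [if_neg hi, hy'2 i hi]; ring
      simp only [e]
      rw [sum_add_distrib]
      congr 1
      rw [← sum_filter, mul_sum]
      congr 1
      ext i
      simp
    have hMh : 0 ≤ ∑ i ∈ M, h i := sum_nonneg (fun i _ => hh i)
    have hAh : 0 ≤ ∑ i ∈ A, h i := sum_nonneg (fun i _ => hh i)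
    rcases le_total (∑ i ∈ M, h i) (∑ i ∈ A, h i) with hle | hle
    · refine ⟨A, hA1, ?_⟩
      rw [hsplit]
      nlinarith
    · refine ⟨M, ?_, ?_⟩
      · intro i hi j hj
        exact ((hMm j).1 hj).2 i ((hMm i).1 hi).1
      · rw [hsplit]
        nlinarith

theorem LEV : stmt_LEV := by
  classical
  intro ι hι lt y h W hirr htr hy hh hC
  exact lev_ind lt hirr htr h hh _ y W le_rfl hy hC

end Wn
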