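import Pool.Agent.Work.MP_959bfa_lin.Interface3

set_option autoImplicit false

/-!
Block UNC (MP_959bfa_co, helper63): the uncrossed maximiser.
-/

namespace Wn

open Finset

/-- indicator function of a box -/
noncomputable def unc_ind (R : Bx) (u v : ℝ) : ℝ := by
  classical exact if In R u v then 1 else 0

theorem unc_ind_nonneg (R : Bx) (u v : ℝ) : 0 ≤ unc_ind R u v := by
  classical
  unfold unc_ind
  split_ifs <;> norm_num

theorem unc_ind_of {R : Bx} {u v : ℝ} (h : In R u v) : unc_ind R u v = 1 := by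
  classical
  unfold unc_ind
  rw [if_pos h]

theorem unc_ind_not {R : Bx} {u v : ℝ} (h : ¬ In R u v) : unc_ind R u v = 0 := by
  classical
  unfold unc_ind
  rw [if_neg h]

/-- intersection of the first intervals, union of the second ones -/
noncomputable def unc_K (R S : Bx) : Bx := ⟨max R.l S.l, min R.r S.r, min R.b S.b, max R.t S.t⟩

/-- union of the first intervals, intersection of the second ones -/
noncomputable def unc_L (R S : Bx) : Bx := ⟨min R.l S.l, max R.r S.r, max R.b S.b, min R.t S.t⟩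

/-- width minus height -/
def unc_phi (R : Bx) : ℝ := (R.r - R.l) - (R.t - R.b)

/-- two nonempty boxes which meet -/
theorem unc_meet {R S : Bx} (h : ¬ Dj R S) :
    R.l ≤ S.r ∧ S.l ≤ R.r ∧ R.b ≤ S.t ∧ S.b ≤ R.t := by
  unfold Dj at h
  push Not at h
  obtain ⟨x, y, ⟨h1, h2, h3, h4⟩, h5, h6, h7, h8⟩ := h
  exact ⟨by linarith, by linarith, by linarith, by linarith⟩

theorem unc_K_in {R S : Bx} (h : ¬ Dj R S) (u v : ℝ) :
    In (unc_K R S) u v ↔ (R.l ≤ u ∧ u ≤ R.r) ∧ (S.l ≤ u ∧ u ≤ S.r) ∧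
      ((R.b ≤ v ∧ v ≤ R.t) ∨ (S.b ≤ v ∧ v ≤ S.t)) := by
  obtain ⟨h1, h2, h3, h4⟩ := unc_meet h
  unfold In unc_K
  simp only [max_le_iff, le_min_iff, min_le_iff, le_max_iff]
  constructor
  · rintro ⟨⟨a1, a2⟩, ⟨a3, a4⟩, a5, a6⟩
    refine ⟨⟨a1, a3⟩, ⟨a2, a4⟩, ?_⟩
    by_cases hb : R.b ≤ v
    · by_cases ht : v ≤ R.t
      · exact Or.inl ⟨hb, ht⟩
      · push Not at ht
        refine Or.inr ⟨by linarith, ?_⟩
        rcases a6 with a6 | a6
        · linarith
        · exact a6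
    · push Not at hb
      refine Or.inr ⟨?_, by linarith⟩
      rcases a5 with a5 | a5
      · linarith
      · exact a5
  · rintro ⟨⟨a1, a3⟩, ⟨a2, a4⟩, a5 | a5⟩
    · exact ⟨⟨a1, a2⟩, ⟨a3, a4⟩, Or.inl a5.1, Or.inl a5.2⟩
    · exact ⟨⟨a1, a2⟩, ⟨a3, a4⟩, Or.inr a5.1, Or.inr a5.2⟩

theorem unc_L_in {R S : Bx} (h : ¬ Dj R S) (u v : ℝ) :
    In (unc_L R S) u v ↔ ((R.l ≤ u ∧ u ≤ R.r) ∨ (S.l ≤ u ∧ u ≤ S.r)) ∧
      (R.b ≤ v ∧ v ≤ R.t) ∧ (S.b ≤ v ∧ v ≤ S.t) := by
  obtain ⟨h1, h2, h3, h4⟩ := unc_meet h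
  unfold In unc_L
  simp only [max_le_iff, le_min_iff, min_le_iff, le_max_iff]
  constructor
  · rintro ⟨a5, a6, ⟨a1, a2⟩, ⟨a3, a4⟩⟩
    refine ⟨?_, ⟨a1, a3⟩, ⟨a2, a4⟩⟩
    by_cases hb : R.l ≤ u
    · by_cases ht : u ≤ R.r
      · exact Or.inl ⟨hb, ht⟩
      · push Not at ht
        refine Or.inr ⟨by linarith, ?_⟩
        rcases a6 with a6 | a6
        · linarith
        · exact a6
    · push Not at hb
      refine Or.inr ⟨?_, by linarith⟩
      rcases a5 with a5 | a5
      · linarith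
      · exact a5
  · rintro ⟨a5 | a5, ⟨a1, a3⟩, ⟨a2, a4⟩⟩
    · exact ⟨Or.inl a5.1, Or.inl a5.2, ⟨a1, a2⟩, ⟨a3, a4⟩⟩
    · exact ⟨Or.inr a5.1, Or.inr a5.2, ⟨a1, a2⟩, ⟨a3, a4⟩⟩

theorem unc_bool_le (A B C D : Prop) [Decidable (A ∧ B ∧ (C ∨ D))] [Decidable ((A ∨ B) ∧ C ∧ D)]
    [Decidable (A ∧ C)] [Decidable (B ∧ D)] :
    (if A ∧ B ∧ (C ∨ D) then (1 : ℝ) else 0) + (if (A ∨ B) ∧ C ∧ D then 1 else 0) ≤
      (if A ∧ C then 1 else 0) + (if B ∧ D then 1 else 0) := by
  by_cases hA : A <;> by_cases hB : B <;> by_cases hC : C <;> by_cases hD : D <;>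
    simp [hA, hB, hC, hD]

theorem unc_bool_eq (A B C D : Prop) [Decidable (A ∧ B ∧ (C ∨ D))] [Decidable ((A ∨ B) ∧ C ∧ D)]
    [Decidable (A ∧ C)] [Decidable (B ∧ D)] (h1 : ¬ ((A ∧ C) ∧ ¬ B ∧ ¬ D))
    (h2 : ¬ ((B ∧ D) ∧ ¬ A ∧ ¬ C)) :
    (if A ∧ B ∧ (C ∨ D) then (1 : ℝ) else 0) + (if (A ∨ B) ∧ C ∧ D then 1 else 0) =
      (if A ∧ C then 1 else 0) + (if B ∧ D then 1 else 0) := by
  by_cases hA : A <;> by_cases hB : B <;> by_cases hC : C <;> by_cases hD : D <;>
    simp [hA, hB, hC, hD] at h1 h2 ⊢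

theorem unc_in_iff (R : Bx) (u v : ℝ) :
    In R u v ↔ (R.l ≤ u ∧ u ≤ R.r) ∧ (R.b ≤ v ∧ v ≤ R.t) := by
  unfold In; tauto

theorem unc_ind_le {R S : Bx} (h : ¬ Dj R S) (u v : ℝ) :
    unc_ind (unc_K R S) u v + unc_ind (unc_L R S) u v ≤ unc_ind R u v + unc_ind S u v := by
  classical
  unfold unc_ind
  simp only [unc_K_in h, unc_L_in h, unc_in_iff R, unc_in_iff S]
  exact unc_bool_le _ _ _ _

theorem unc_ind_eq {R S : Bx} (h : ¬ Dj R S) (u v : ℝ) (h1 : ¬ Cnr R S u v)
    (h2 : ¬ Cnr S R u v) :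
    unc_ind (unc_K R S) u v + unc_ind (unc_L R S) u v = unc_ind R u v + unc_ind S u v := by
  classical
  unfold unc_ind
  simp only [unc_K_in h, unc_L_in h, unc_in_iff R, unc_in_iff S]
  unfold Cnr at h1 h2
  have e3 : (u < S.l ∨ S.r < u) ↔ ¬ (S.l ≤ u ∧ u ≤ S.r) := by
    rw [not_and_or, not_le, not_le]
  have e4 : (v < S.b ∨ S.t < v) ↔ ¬ (S.b ≤ v ∧ v ≤ S.t) := by
    rw [not_and_or, not_le, not_le]
  have e5 : (u < R.l ∨ R.r < u) ↔ ¬ (R.l ≤ u ∧ u ≤ R.r) := by
    rw [not_and_or, not_le, not_le]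
  have e6 : (v < R.b ∨ R.t < v) ↔ ¬ (R.b ≤ v ∧ v ≤ R.t) := by
    rw [not_and_or, not_le, not_le]
  rw [unc_in_iff, e3, e4] at h1
  rw [unc_in_iff, e5, e6] at h2
  exact unc_bool_eq _ _ _ _ h1 h2

theorem unc_phi_lt {R S : Bx} (h1 : ¬ Wk R S) (h2 : ¬ Wk S R) :
    unc_phi R ^ 2 + unc_phi S ^ 2 <
      unc_phi (unc_K R S) ^ 2 + unc_phi (unc_L R S) ^ 2 := by
  have hs : unc_phi (unc_K R S) + unc_phi (unc_L R S) = unc_phi R + unc_phi S := by
    unfold unc_phi unc_K unc_L
    simp only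
    have e1 := min_add_max R.r S.r
    have e2 := min_add_max R.l S.l
    have e3 := min_add_max R.t S.t
    have e4 := min_add_max R.b S.b
    linarith
  have k1 : unc_phi (unc_K R S) < unc_phi R := by
    unfold unc_phi unc_K
    simp only
    have a1 : R.l ≤ max R.l S.l := le_max_left _ _
    have a2 : min R.r S.r ≤ R.r := min_le_left _ _
    have a3 : min R.b S.b ≤ R.b := min_le_left _ _
    have a4 : R.t ≤ max R.t S.t := le_max_left _ _
    by_contra hc
    apply h1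
    unfold Wk
    have b1 : max R.l S.l = R.l := by linarith
    have b2 : min R.r S.r = R.r := by linarith
    have b3 : min R.b S.b = R.b := by linarith
    have b4 : max R.t S.t = R.t := by linarith
    exact ⟨max_eq_left_iff.mp b1, min_eq_left_iff.mp b2, min_eq_left_iff.mp b3,
      max_eq_left_iff.mp b4⟩
  have k2 : unc_phi (unc_K R S) < unc_phi S := by
    unfold unc_phi unc_K
    simp only
    have a1 : S.l ≤ max R.l S.l := le_max_right _ _
    have a2 : min R.r S.r ≤ S.r := min_le_right _ _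
    have a3 : min R.b S.b ≤ S.b := min_le_right _ _
    have a4 : S.t ≤ max R.t S.t := le_max_right _ _
    by_contra hc
    apply h2
    unfold Wk
    have b1 : max R.l S.l = S.l := by linarith
    have b2 : min R.r S.r = S.r := by linarith
    have b3 : min R.b S.b = S.b := by linarith
    have b4 : max R.t S.t = S.t := by linarith
    exact ⟨max_eq_right_iff.mp b1, min_eq_right_iff.mp b2, min_eq_right_iff.mp b3,
      max_eq_right_iff.mp b4⟩
  have e : unc_phi (unc_L R S) = unc_phi R + unc_phi S - unc_phi (unc_K R S) := by linarith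
  rw [e]
  nlinarith [mul_pos (sub_pos.mpr k1) (sub_pos.mpr k2)]

theorem unc_gn {n : ℕ} (P : Fin n → ℝ × ℝ) (a : Fin n → ℝ) (c : ℝ) (R : Bx) :
    gn P a c R = (∑ p, a p * unc_ind R (P p).1 (P p).2) - c := by
  classical
  unfold gn inds fl unc_ind
  rw [sum_filter]
  congr 1
  apply sum_congr rfl
  intro p _
  split_ifs <;> simp

theorem unc_gn_eq {n : ℕ} (P : Fin n → ℝ × ℝ) (a : Fin n → ℝ) (c : ℝ) {R S : Bx}
    (h : ¬ Unc P R S) :
    gn P a c (unc_K R S) + gn P a c (unc_L R S) = gn P a c R + gn P a c S := by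
  unfold Unc at h
  push Not at h
  obtain ⟨h0, h1⟩ := h
  rw [unc_gn, unc_gn, unc_gn, unc_gn]
  have : ∑ p, a p * unc_ind (unc_K R S) (P p).1 (P p).2 +
      ∑ p, a p * unc_ind (unc_L R S) (P p).1 (P p).2 =
      ∑ p, a p * unc_ind R (P p).1 (P p).2 + ∑ p, a p * unc_ind S (P p).1 (P p).2 := by
    rw [← sum_add_distrib, ← sum_add_distrib]
    apply sum_congr rfl
    intro p _
    rw [← mul_add, ← mul_add, unc_ind_eq h0 _ _ (h1 p).1 (h1 p).2]
  linarith

/-- the perturbed weights -/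
theorem unc_pert_sum {κ : Type} [Fintype κ] [DecidableEq κ] (y f : κ → ℝ) (d : ℝ)
    (k l i j : κ) :
    ∑ q, (y q + d * ((if q = k then 1 else 0) + (if q = l then 1 else 0) -
      (if q = i then 1 else 0) - (if q = j then 1 else 0))) * f q =
      ∑ q, y q * f q + d * (f k + f l - f i - f j) := by
  have e : ∀ q, (y q + d * ((if q = k then 1 else 0) + (if q = l then 1 else 0) -
      (if q = i then 1 else 0) - (if q = j then 1 else 0))) * f q =
      y q * f q + d * ((if q = k then f q else 0) + (if q = l then f q else 0) -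
      (if q = i then f q else 0) - (if q = j then f q else 0)) := by
    intro q
    split_ifs <;> ring
  simp only [e]
  rw [sum_add_distrib, ← mul_sum, sum_sub_distrib, sum_sub_distrib, sum_add_distrib]
  simp

/-- feasible weights -/
def unc_F {κ : Type} [Fintype κ] (Φ : κ → Bx) : Set (κ → ℝ) :=
  {y | (∀ q, 0 ≤ y q) ∧ ∀ u v, ∑ q, y q * unc_ind (Φ q) u v ≤ 1}

theorem unc_compact {κ : Type} [Fintype κ] (Φ : κ → Bx) (hNe : ∀ q, Ne (Φ q)) :
    IsCompact (unc_F Φ) := by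
  have hc : IsCompact (Set.pi Set.univ (fun _ : κ => Set.Icc (0 : ℝ) 1)) :=
    isCompact_univ_pi (fun _ => isCompact_Icc)
  apply hc.of_isClosed_subset
  · have h1 : unc_F Φ = (⋂ q, {y : κ → ℝ | 0 ≤ y q}) ∩
        ⋂ u, ⋂ v, {y : κ → ℝ | ∑ q, y q * unc_ind (Φ q) u v ≤ 1} := by
      ext y
      simp only [unc_F, Set.mem_ofPred_eq, Set.mem_inter_iff, Set.mem_iInter]
    rw [h1]
    apply IsClosed.inter
    · apply isClosed_iInter
      intro q
      exact isClosed_le continuous_const (continuous_apply q)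
    · apply isClosed_iInter
      intro u
      apply isClosed_iInter
      intro v
      apply isClosed_le _ continuous_const
      exact continuous_finsetSum _ (fun q _ => (continuous_apply q).mul continuous_const)
  · intro y hy
    rw [Set.mem_univ_pi]
    intro q
    refine ⟨hy.1 q, ?_⟩
    have h1 := hy.2 (Φ q).l (Φ q).b
    have h2 : y q * unc_ind (Φ q) (Φ q).l (Φ q).b ≤ ∑ q', y q' * unc_ind (Φ q') (Φ q).l (Φ q).b :=
      single_le_sum (f := fun q' => y q' * unc_ind (Φ q') (Φ q).l (Φ q).b)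
        (fun q' _ => mul_nonneg (hy.1 q') (unc_ind_nonneg _ _ _)) (mem_univ q)
    rw [unc_ind_of (show In (Φ q) (Φ q).l (Φ q).b from
      ⟨le_rfl, (hNe q).1, le_rfl, (hNe q).2⟩), mul_one] at h2
    linarith

theorem unc_abs {κ : Type} [Fintype κ] [DecidableEq κ] (Φ : κ → Bx) (hNe : ∀ q, Ne (Φ q))
    (hcl : ∀ i j, ¬ Dj (Φ i) (Φ j) → (∃ k, Φ k = unc_K (Φ i) (Φ j)) ∧
      ∃ l, Φ l = unc_L (Φ i) (Φ j)) {n : ℕ} (P : Fin n → ℝ × ℝ) (a : Fin n → ℝ) (c : ℝ) :
    ∃ y ∈ unc_F Φ, (∀ z ∈ unc_F Φ, ∑ q, z q * gn P a c (Φ q) ≤ ∑ q, y q * gn P a c (Φ q)) ∧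
      (∀ i, 0 < y i → 0 ≤ gn P a c (Φ i)) ∧
      (∀ i j, 0 < y i → 0 < y j → ¬ Wk (Φ i) (Φ j) → ¬ Wk (Φ j) (Φ i) →
        Unc P (Φ i) (Φ j)) := by
  have hcomp := unc_compact Φ hNe
  have h0 : (fun _ => 0 : κ → ℝ) ∈ unc_F Φ := by
    refine ⟨fun _ => le_rfl, fun u v => ?_⟩
    simp
  have hG : Continuous (fun y : κ → ℝ => ∑ q, y q * gn P a c (Φ q)) :=
    continuous_finsetSum _ (fun q _ => (continuous_apply q).mul continuous_const)
  have hΨ : Continuous (fun y : κ → ℝ => ∑ q, y q * unc_phi (Φ q) ^ 2) :=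
    continuous_finsetSum _ (fun q _ => (continuous_apply q).mul continuous_const)
  obtain ⟨y1, hy1, hmax1⟩ := hcomp.exists_isMaxOn ⟨_, h0⟩ hG.continuousOn
  have hmax1' : ∀ z ∈ unc_F Φ, ∑ q, z q * gn P a c (Φ q) ≤ ∑ q, y1 q * gn P a c (Φ q) :=
    fun z hz => hmax1 hz
  have hcl2 : IsClosed {y : κ → ℝ | ∑ q, y q * gn P a c (Φ q) = ∑ q, y1 q * gn P a c (Φ q)} :=
    isClosed_eq hG continuous_const
  have hcomp2 := hcomp.inter_right hcl2
  obtain ⟨y, hy, hmax⟩ := hcomp2.exists_isMaxOn ⟨y1, hy1, rfl⟩ hΨ.continuousOn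
  have hyF := hy.1
  have hyG : ∑ q, y q * gn P a c (Φ q) = ∑ q, y1 q * gn P a c (Φ q) := hy.2
  have hmax' : ∀ z ∈ unc_F Φ, ∑ q, z q * gn P a c (Φ q) = ∑ q, y1 q * gn P a c (Φ q) →
      ∑ q, z q * unc_phi (Φ q) ^ 2 ≤ ∑ q, y q * unc_phi (Φ q) ^ 2 :=
    fun z hz hz2 => hmax ⟨hz, hz2⟩
  refine ⟨y, hyF, fun z hz => ?_, ?_, ?_⟩
  · rw [hyG]; exact hmax1' z hz
  · intro i hi
    by_contra hc
    push Not at hc
    have hupd : ∀ f : κ → ℝ, ∑ q, (Function.update y i 0) q * f q =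
        ∑ q, y q * f q - y i * f i := by
      intro f
      have e : ∀ q, (Function.update y i 0) q * f q =
          y q * f q - (if q = i then y q * f q else 0) := by
        intro q
        by_cases hq : q = i
        · subst hq; simp
        · rw [Function.update_of_ne hq, if_neg hq, sub_zero]
      simp only [e]
      rw [sum_sub_distrib]
      simp
    have hz : Function.update y i 0 ∈ unc_F Φ := by
      refine ⟨fun q => ?_, fun u v => ?_⟩
      · by_cases hq : q = i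
        · subst hq; simp
        · rw [Function.update_of_ne hq]; exact hyF.1 q
      · rw [hupd]
        have := hyF.2 u v
        have h2 := mul_nonneg hi.le (unc_ind_nonneg (Φ i) u v)
        linarith
    have h1 := hmax1' _ hz
    rw [hupd, ← hyG] at h1
    have h2 : y i * gn P a c (Φ i) < 0 := mul_neg_of_pos_of_neg hi hc
    linarith
  · intro i j hi hj hij hji
    by_contra hU
    have hD : ¬ Dj (Φ i) (Φ j) := fun hc => hU (Or.inl hc)
    obtain ⟨⟨k, hk⟩, l, hl⟩ := hcl i j hD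
    have hne : i ≠ j := by
      rintro rfl
      exact hij ⟨le_rfl, le_rfl, le_rfl, le_rfl⟩
    obtain ⟨d, hd⟩ : ∃ d : ℝ, d = min (y i) (y j) := ⟨_, rfl⟩
    have hd0 : 0 < d := by rw [hd]; exact lt_min hi hj
    have hdi : d ≤ y i := by rw [hd]; exact min_le_left _ _
    have hdj : d ≤ y j := by rw [hd]; exact min_le_right _ _
    let z : κ → ℝ := fun q => y q + d * ((if q = k then 1 else 0) + (if q = l then 1 else 0) -
      (if q = i then 1 else 0) - (if q = j then 1 else 0))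
    have hz : z ∈ unc_F Φ := by
      refine ⟨fun q => ?_, fun u v => ?_⟩
      · simp only [z]
        have hq0 := hyF.1 q
        have e1 : (0 : ℝ) ≤ (if q = k then 1 else 0) := by split_ifs <;> norm_num
        have e2 : (0 : ℝ) ≤ (if q = l then 1 else 0) := by split_ifs <;> norm_num
        by_cases h1 : q = i
        · have h2 : q ≠ j := fun h => hne (h1.symm.trans h)
          rw [if_pos h1, if_neg h2]
          have : d ≤ y q := by rw [h1]; exact hdi
          nlinarith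
        · rw [if_neg h1]
          by_cases h2 : q = j
          · rw [if_pos h2]
            have : d ≤ y q := by rw [h2]; exact hdj
            nlinarith
          · rw [if_neg h2]
            nlinarith
      · simp only [z]
        rw [unc_pert_sum, hk, hl]
        have h1 := hyF.2 u v
        have h2 := unc_ind_le hD u v
        nlinarith
    have h1 : ∑ q, z q * gn P a c (Φ q) = ∑ q, y1 q * gn P a c (Φ q) := by
      simp only [z]
      rw [unc_pert_sum, hk, hl, ← hyG]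
      have := unc_gn_eq P a c hU
      have e : gn P a c (unc_K (Φ i) (Φ j)) + gn P a c (unc_L (Φ i) (Φ j)) -
        gn P a c (Φ i) - gn P a c (Φ j) = 0 := by linarith
      rw [e, mul_zero, add_zero]
    have h2 := hmax' z hz h1
    simp only [z] at h2
    rw [unc_pert_sum, hk, hl] at h2
    have h3 := unc_phi_lt hij hji
    nlinarith

/-- the box with four given coordinates -/
def unc_B (X : Finset ℝ) (q : X × X × X × X) : Bx := ⟨q.1, q.2.1, q.2.2.1, q.2.2.2⟩

theorem unc_B_inj (X : Finset ℝ) : Function.Injective (unc_B X) := by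
  rintro ⟨a, b, c, d⟩ ⟨a', b', c', d'⟩ h
  unfold unc_B at h
  simp only [Bx.mk.injEq] at h
  obtain ⟨h1, h2, h3, h4⟩ := h
  rw [Subtype.ext h1, Subtype.ext h2, Subtype.ext h3, Subtype.ext h4]

theorem unc_B_ex (X : Finset ℝ) (R : Bx) (h1 : R.l ∈ X) (h2 : R.r ∈ X) (h3 : R.b ∈ X)
    (h4 : R.t ∈ X) : ∃ q, unc_B X q = R :=
  ⟨(⟨R.l, h1⟩, ⟨R.r, h2⟩, ⟨R.b, h3⟩, ⟨R.t, h4⟩), rfl⟩

theorem unc_max_mem {X : Finset ℝ} {a b : ℝ} (ha : a ∈ X) (hb : b ∈ X) : max a b ∈ X := by
  rcases max_choice a b with h | h <;> rw [h] <;> assumption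

theorem unc_min_mem {X : Finset ℝ} {a b : ℝ} (ha : a ∈ X) (hb : b ∈ X) : min a b ∈ X := by
  rcases min_choice a b with h | h <;> rw [h] <;> assumption

theorem UNC : stmt_UNC := by
  classical
  intro n t w P a c R hNe hw hdep
  let X : Finset ℝ := (univ.image fun i => (R i).l) ∪ (univ.image fun i => (R i).r) ∪
    (univ.image fun i => (R i).b) ∪ (univ.image fun i => (R i).t)
  have hXl : ∀ i, (R i).l ∈ X := fun i => by simp [X]
  have hXr : ∀ i, (R i).r ∈ X := fun i => by simp [X]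
  have hXb : ∀ i, (R i).b ∈ X := fun i => by simp [X]
  have hXt : ∀ i, (R i).t ∈ X := fun i => by simp [X]
  let κ := {q : X × X × X × X // Ne (unc_B X q)}
  let Φ : κ → Bx := fun q => unc_B X q.1
  have hΦinj : Function.Injective Φ := fun q q' h => Subtype.ext (unc_B_inj X h)
  have hex : ∀ S : Bx, S.l ∈ X → S.r ∈ X → S.b ∈ X → S.t ∈ X → Ne S → ∃ q : κ, Φ q = S := by
    intro S h1 h2 h3 h4 h5
    obtain ⟨q, hq⟩ := unc_B_ex X S h1 h2 h3 h4
    exact ⟨⟨q, by rw [hq]; exact h5⟩, hq⟩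
  have hcl : ∀ i j : κ, ¬ Dj (Φ i) (Φ j) → (∃ k, Φ k = unc_K (Φ i) (Φ j)) ∧
      ∃ l, Φ l = unc_L (Φ i) (Φ j) := by
    intro i j hD
    obtain ⟨m1, m2, m3, m4⟩ := unc_meet hD
    have i5 : Ne (Φ i) := i.2
    have j5 : Ne (Φ j) := j.2
    have i1 : (Φ i).l ∈ X := i.1.1.2
    have i2 : (Φ i).r ∈ X := i.1.2.1.2
    have i3 : (Φ i).b ∈ X := i.1.2.2.1.2
    have i4 : (Φ i).t ∈ X := i.1.2.2.2.2
    have j1 : (Φ j).l ∈ X := j.1.1.2
    have j2 : (Φ j).r ∈ X := j.1.2.1.2
    have j3 : (Φ j).b ∈ X := j.1.2.2.1.2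
    have j4 : (Φ j).t ∈ X := j.1.2.2.2.2
    constructor
    · apply hex
      · exact unc_max_mem i1 j1
      · exact unc_min_mem i2 j2
      · exact unc_min_mem i3 j3
      · exact unc_max_mem i4 j4
      · unfold Ne unc_K
        simp only
        exact ⟨max_le (le_min i5.1 m1) (le_min m2 j5.1),
          (min_le_left _ _).trans (i5.2.trans (le_max_left _ _))⟩
    · apply hex
      · exact unc_min_mem i1 j1
      · exact unc_max_mem i2 j2
      · exact unc_max_mem i3 j3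
      · exact unc_min_mem i4 j4
      · unfold Ne unc_L
        simp only
        exact ⟨(min_le_left _ _).trans (i5.1.trans (le_max_left _ _)),
          max_le (le_min i5.2 m3) (le_min m4 j5.2)⟩
  obtain ⟨y, hyF, hmax, hg, hunc⟩ := unc_abs Φ (fun q => q.2) hcl P a c
  -- the given family
  have hr : ∀ i, ∃ q : κ, Φ q = R i := fun i => hex (R i) (hXl i) (hXr i) (hXb i) (hXt i) (hNe i)
  choose r hr using hr
  have hw0 : (0 : ℝ) < w := by exact_mod_cast hw
  let z : κ → ℝ := fun q => ∑ i, (if r i = q then (1 : ℝ) / w else 0)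
  have hzsum : ∀ f : κ → ℝ, ∑ q, z q * f q = ∑ i, f (r i) / w := by
    intro f
    simp only [z, sum_mul]
    rw [sum_comm]
    apply sum_congr rfl
    intro i _
    have e : ∀ q, (if r i = q then (1 : ℝ) / w else 0) * f q =
        if r i = q then f q / w else 0 := by
      intro q
      split_ifs
      · ring
      · ring
    simp only [e]
    rw [sum_ite_eq, if_pos (mem_univ _)]
  have hzF : z ∈ unc_F Φ := by
    refine ⟨fun q => ?_, fun u v => ?_⟩
    · apply sum_nonneg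
      intro i _
      split_ifs
      · positivity
      · exact le_rfl
    · rw [hzsum, ← sum_div, div_le_one hw0]
      have h1 := hdep u v
      have h2 : ∑ i, unc_ind (Φ (r i)) u v =
          ((fl univ (fun j => In (R j) u v)).card : ℝ) := by
        unfold fl unc_ind
        rw [card_filter]
        push_cast
        apply sum_congr rfl
        intro i _
        rw [hr i]
      rw [h2]
      exact_mod_cast h1
  have hzG := hmax z hzF
  rw [hzsum, ← sum_div, div_le_iff₀ hw0] at hzG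
  -- the support
  refine ⟨{q : κ // 0 < y q}, inferInstance, fun q => Φ q.1, fun q => y q.1, ?_, ?_, ?_, ?_, ?_, ?_,
    ?_⟩
  · exact fun q => q.1.2
  · exact fun q q' h => Subtype.ext (hΦinj h)
  · exact fun q => q.2
  · intro u v
    refine le_trans ?_ (hyF.2 u v)
    have h1 : ∑ q ∈ fl (univ : Finset {q : κ // 0 < y q}) (fun i => In (Φ i.1) u v), y q.1 =
        ∑ q : {q : κ // 0 < y q}, y q.1 * unc_ind (Φ q.1) u v := by
      unfold fl unc_ind
      rw [sum_filter]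
      apply sum_congr rfl
      intro q _
      split_ifs <;> simp
    rw [h1]
    have h2 : ∑ q : {q : κ // 0 < y q}, y q.1 * unc_ind (Φ q.1) u v =
        ∑ q ∈ univ.filter (fun q : κ => 0 < y q), y q * unc_ind (Φ q) u v :=
      (sum_subtype (univ.filter (fun q : κ => 0 < y q)) (by simp)
        (fun q => y q * unc_ind (Φ q) u v)).symm
    rw [h2]
    apply sum_le_sum_of_subset_of_nonneg (filter_subset _ _)
    intro q _ _
    exact mul_nonneg (hyF.1 q) (unc_ind_nonneg _ _ _)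
  · exact fun q => hg q.1 q.2
  · have h2 : ∑ q : {q : κ // 0 < y q}, y q.1 * gn P a c (Φ q.1) =
        ∑ q ∈ univ.filter (fun q : κ => 0 < y q), y q * gn P a c (Φ q) :=
      (sum_subtype (univ.filter (fun q : κ => 0 < y q)) (by simp)
        (fun q => y q * gn P a c (Φ q))).symm
    have h3 : ∑ q ∈ univ.filter (fun q : κ => 0 < y q), y q * gn P a c (Φ q) =
        ∑ q, y q * gn P a c (Φ q) := by
      apply sum_filter_of_ne
      intro q _ hq
      rcases (hyF.1 q).lt_or_eq with h4 | h4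
      · exact h4
      · rw [← h4, zero_mul] at hq
        exact absurd rfl hq
    rw [h2, h3]
    have h4 : ∑ i, gn P a c (R i) = ∑ i, gn P a c (Φ (r i)) := by
      apply sum_congr rfl
      intro i _
      rw [hr i]
    rw [h4]
    linarith
  · exact fun i j h1 h2 => hunc i.1 j.1 i.2 j.2 h1 h2

end Wn
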